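import Pool.Agent.R489.HB.Stm

set_option autoImplicit false

namespace Pool.Agent.R23.HB

open Finset Pool.Agent.R489.HB

variable {W : Type} [DecidableEq W]

theorem mem_edg {Φ : Finset (Finset W)} {e : Finset W} :
    e ∈ edg Φ ↔ ∃ f ∈ Φ, e ⊆ f ∧ e.card = 2 := by
  simp only [edg, mem_biUnion, mem_powersetCard]

theorem edg_contr {Φ : Finset (Finset W)} {u v : W} (hΦ : IsTri Φ) (huv : u ≠ v)
    {e : Finset W} (he : e ∈ edg Φ) (hv : v ∉ e) : e ∈ edg (contr u v Φ) := by
  have key : ∀ f ∈ Φ, e ⊆ f → ¬ ({u, v} ⊆ f) → e ∈ edg (contr u v Φ) := by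
    intro f hf hef hn
    rw [mem_edg]
    refine ⟨mv u v f, ?_, ?_, (mem_edg.1 he).choose_spec.2.2⟩
    · exact mem_image.2 ⟨f, mem_filter.2 ⟨hf, hn⟩, rfl⟩
    · intro x hx
      unfold mv
      split_ifs with hvf
      · exact mem_insert_of_mem (mem_erase.2 ⟨fun h => hv (h ▸ hx), hef hx⟩)
      · exact hef hx
  obtain ⟨f, hf, hef, hc⟩ := mem_edg.1 he
  by_cases hn : {u, v} ⊆ f
  · have h2 := hΦ.two e he
    obtain ⟨g1, g2, hne, hg⟩ := Finset.card_eq_two.1 h2
    have hg1 : g1 ∈ fc Φ e := by rw [hg]; simp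
    have hg2 : g2 ∈ fc Φ e := by rw [hg]; simp
    simp only [fc, mem_filter] at hg1 hg2
    by_cases h1 : {u, v} ⊆ g1
    · by_cases h2 : {u, v} ⊆ g2
      · exfalso
        apply hne
        have hvI : insert v e ⊆ g1 := insert_subset (h1 (by simp)) hg1.2
        have hvI2 : insert v e ⊆ g2 := insert_subset (h2 (by simp)) hg2.2
        have hcI : (insert v e).card = 3 := by rw [card_insert_of_notMem hv, hc]
        have e1 := eq_of_subset_of_card_le hvI (by rw [hcI, hΦ.three g1 hg1.1])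
        have e2 := eq_of_subset_of_card_le hvI2 (by rw [hcI, hΦ.three g2 hg2.1])
        rw [← e1, ← e2]
      · exact key g2 hg2.1 hg2.2 h2
    · exact key g1 hg1.1 hg1.2 h1
  · exact key f hf hef hn

theorem FCE : S_FCE := by
  intro W _ Φ a u v hΦ huv _ _ _ hdg hFC
  classical
  set N := (edg Φ).filter (fun e => v ∈ e) with hN
  set Nb : Fin 3 → Finset (Finset W) := fun β => N.filter (fun e => ∀ x ∈ e, x ≠ v → a x = β)
    with hNb
  have hcard : N.card ≤ 5 := hdg
  have hdis : ∀ β γ : Fin 3, β ≠ γ → Disjoint (Nb β) (Nb γ) := by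
    intro β γ hne
    rw [Finset.disjoint_left]
    intro e h1 h2
    simp only [hNb, hN, mem_filter] at h1 h2
    obtain ⟨f, hf, hef, hc⟩ := mem_edg.1 h1.1.1
    have : ∃ x ∈ e, x ≠ v := by
      by_contra hcon
      push Not at hcon
      have : e ⊆ {v} := fun x hx => by rw [mem_singleton]; exact hcon x hx
      have := card_le_card this
      rw [card_singleton, hc] at this
      omega
    obtain ⟨x, hx, hxv⟩ := this
    exact hne ((h1.2 x hx hxv).symm.trans (h2.2 x hx hxv))
  have hex : ∃ β, (Nb β).card ≤ 1 := by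
    by_contra hcon
    push Not at hcon
    have hsum : ∑ β : Fin 3, (Nb β).card ≤ N.card := by
      rw [← Finset.card_biUnion (fun β _ γ _ h => hdis β γ h)]
      exact card_le_card (biUnion_subset.2 (fun β _ => filter_subset _ _))
    have h6 : ∑ β : Fin 3, 2 ≤ ∑ β : Fin 3, (Nb β).card :=
      Finset.sum_le_sum (fun β _ => hcon β)
    simp at h6
    omega
  obtain ⟨β, hβ⟩ := hex
  refine ⟨β, ?_⟩
  set a' := Function.update a v β with ha'
  have hmono : ∀ e : Finset W, v ∉ e → mono a' e → mono a e := by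
    intro e hv hm x hx y hy
    have h1 : x ≠ v := fun h => hv (h ▸ hx)
    have h2 : y ≠ v := fun h => hv (h ▸ hy)
    have := hm x hx y hy
    rwa [ha', Function.update_of_ne h1, Function.update_of_ne h2] at this
  have hS1 : LinearIndepOn (ZMod 2) ind {e : Finset W | e ∈ edg Φ ∧ mono a' e ∧ v ∉ e} := by
    refine LinearIndepOn.mono hFC ?_
    rintro e ⟨he, hm, hv⟩
    exact ⟨edg_contr hΦ huv he hv, hmono e hv hm⟩
  have hspan : ∀ w ∈ Submodule.span (ZMod 2)
      (ind '' {e : Finset W | e ∈ edg Φ ∧ mono a' e ∧ v ∉ e}), w v = 0 := by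
    intro w hw
    induction hw using Submodule.span_induction with
    | mem x hx =>
      obtain ⟨e, he, rfl⟩ := hx
      simp [ind, he.2.2]
    | zero => rfl
    | add x y _ _ hx hy => simp [hx, hy]
    | smul c x _ hx => simp [hx]
  unfold FC
  have hS2 : ∀ e ∈ edg Φ, mono a' e → v ∈ e → e ∈ Nb β := by
    intro e he hm hv
    simp only [hNb, hN, mem_filter]
    refine ⟨⟨he, hv⟩, fun x hx hxv => ?_⟩
    have := hm x hx v hv
    rwa [ha', Function.update_of_ne hxv, Function.update_self] at this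
  by_cases hE : ∃ e0 ∈ edg Φ, mono a' e0 ∧ v ∈ e0
  · obtain ⟨e0, he0, hm0, hv0⟩ := hE
    have hins : {e : Finset W | e ∈ edg Φ ∧ mono a' e} =
        insert e0 {e : Finset W | e ∈ edg Φ ∧ mono a' e ∧ v ∉ e} := by
      ext e
      simp only [Set.mem_setOf_eq, Set.mem_insert_iff]
      constructor
      · rintro ⟨he, hm⟩
        by_cases hv : v ∈ e
        · left
          exact Finset.card_le_one.1 hβ _ (hS2 e he hm hv) _ (hS2 e0 he0 hm0 hv0)
        · exact Or.inr ⟨he, hm, hv⟩
      · rintro (rfl | ⟨he, hm, _⟩)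
        · exact ⟨he0, hm0⟩
        · exact ⟨he, hm⟩
    rw [hins]
    refine LinearIndepOn.insert hS1 ?_
    intro hmem
    have := hspan _ hmem
    simp [ind, hv0] at this
  · push Not at hE
    refine LinearIndepOn.mono hS1 ?_
    rintro e ⟨he, hm⟩
    exact ⟨he, hm, fun hv => hE e he hm hv⟩

end Pool.Agent.R23.HB
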